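import Pool.Agent.H37.DEN.Targets
import Pool.Agent.H14.TD.INS

/-!
# Bézout for the iterates (BEZ)
-/

set_option autoImplicit false

open MvPolynomial Filter Topology
open Pool.Agent.H18.HIT
open Pool.Agent.H8.TD
open Pool.Agent.H37.DEN

namespace Pool.Agent.H13.DEN

theorem poly_step (hPDG : T_PDG) (hADJ : T_ADJ) (k : Type) [Field k] [CharZero k]
    (φ : Fin 3 → K3 k) (β γ : K3 k) (R : Po 3 k) (Y : ℕ)
    (hY : ∀ u : Fin 3 → k, dg k {lc u φ, β, γ} ≤ Y) :
    dg k {aeval φ R, β, γ} ≤ R.totalDegree * Y := by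
  set κ := IntermediateField.adjoin k ({β, γ} : Set (K3 k)) with hκ
  have hins : ∀ c : K3 k, dg k {c, β, γ} = dg κ {c} := by
    intro c
    exact (hADJ k (K3 k) ({β, γ} : Set (K3 k)) c).symm
  rw [hins]
  by_cases hy : ∃ y : K3 k, FiniteDimensional (IntermediateField.adjoin κ {y}) (K3 k)
  · have ht : ∃ y : K3 k, Transcendental κ y := by
      by_contra hcon
      push Not at hcon
      refine Pool.Agent.H14.TD.not_alg k β γ ⟨fun x => ?_⟩
      have := hcon x
      unfold Transcendental at this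
      push Not at this
      exact this
    have hch : CharZero κ := charZero_of_injective_algebraMap (algebraMap k κ).injective
    have hz : aeval φ R =
        aeval φ (MvPolynomial.map (algebraMap k κ) R) /
          aeval φ (1 : MvPolynomial (Fin 3) κ) := by
      rw [MvPolynomial.aeval_map_algebraMap, map_one, div_one]
    rw [hz]
    refine hPDG k κ (K3 k) 3 φ Y R.totalDegree _ _ hy ht (fun u => ?_) ?_ ?_ ?_
    · rw [← hins]
      exact hY u
    · exact Pool.Agent.H14.TD.totalDegree_map_le' _ _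
    · rw [MvPolynomial.totalDegree_one]
      exact Nat.zero_le _
    · rw [map_one]
      exact one_ne_zero
  · have h1 : ¬ Module.Finite (IntermediateField.adjoin κ {aeval φ R}) (K3 k) :=
      fun h => hy ⟨_, h⟩
    have h2 : dg κ {aeval φ R} = 0 := by
      unfold dg
      exact Module.finrank_of_not_finite h1
    rw [h2]
    exact Nat.zero_le _

theorem iter_poly (k : Type) [Field k] (τ : K3 k →ₐ[k] K3 k) (n : ℕ) (R : Po 3 k) :
    τ^[n] (ι R) = aeval (ph τ n) R := by
  obtain ⟨σ, hσ⟩ := Pool.Agent.H14.TD.exists_iter τ n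
  have h1 : σ.comp (IsScalarTower.toAlgHom k (Po 3 k) (K3 k)) = aeval (ph τ n) := by
    apply MvPolynomial.algHom_ext
    intro i
    rw [aeval_X]
    exact hσ _
  rw [← hσ]
  exact congrArg (fun f : Po 3 k →ₐ[k] K3 k => f R) h1

theorem rot3 {K : Type} (a b c : K) : ({a, b, c} : Set K) = {b, c, a} := by
  rw [Set.insert_comm a b, Set.pair_comm a c]

theorem pf_BEZ (hPDG : T_PDG) (hADJ : T_ADJ) : T_BEZ := by
  intro k _ _ τ P Q n M hM s
  rw [iter_poly, iter_poly]
  have h1 : ∀ s' : Fin 3 → k,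
      dg k {aeval (ph τ n) Q, lc s (xx k), lc s' (ph τ n)} ≤ Q.totalDegree * M := by
    intro s'
    refine poly_step hPDG hADJ k (ph τ n) (lc s (xx k)) (lc s' (ph τ n)) Q M fun u => ?_
    have h2 := hM s s' u
    rw [← rot3 (lc u (ph τ n)) (lc s (xx k)) (lc s' (ph τ n))] at h2
    exact h2
  have h2 := poly_step hPDG hADJ k (ph τ n) (aeval (ph τ n) Q) (lc s (xx k)) P
    (Q.totalDegree * M) fun u => by
      have h3 := h1 u
      rw [← rot3 (lc u (ph τ n)) (aeval (ph τ n) Q) (lc s (xx k))] at h3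
      exact h3
  rw [← rot3 (lc s (xx k)) (aeval (ph τ n) P) (aeval (ph τ n) Q)] at h2
  rw [Nat.mul_assoc]
  exact h2

end Pool.Agent.H13.DEN
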